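import Mathlib

namespace Pool.Agent.Results.MP_375cbb_nt.Alpha

open PowerSeries Finset

lemma den_odd_iff (q : ℚ) : Odd q.den ↔ padicNorm 2 q ≤ 1 := by
  rw [← Nat.not_even_iff_odd, even_iff_two_dvd]
  rcases eq_or_ne q 0 with rfl | hq
  · simp
  rw [padicNorm.eq_zpow_of_nonzero hq, zpow_le_one_iff_right₀ (by norm_num), padicValRat_def]
  constructor
  · intro h
    rw [padicValNat.eq_zero_of_not_dvd h]
    omega
  · intro h h2
    have h3 : 1 ≤ padicValNat 2 q.den := one_le_padicValNat_of_dvd q.den_nz h2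
    have h4 : ¬ ((2 : ℕ) : ℤ) ∣ q.num := fun h5 => by
      have := Nat.dvd_gcd (Int.natCast_dvd.1 h5) h2
      rw [q.reduced] at this
      omega
    rw [padicValInt.eq_zero_of_not_dvd h4] at h
    omega

lemma choose_odd (v c k : ℕ) (hk : k < 2 ^ v) : ¬ 2 ∣ (2 ^ v * c + k).choose k := by
  induction v generalizing k with
  | zero =>
    obtain rfl : k = 0 := by simpa using hk
    simp
  | succ v ih =>
    have h := Choose.choose_modEq_choose_mod_mul_choose_div_nat (n := 2 ^ (v + 1) * c + k)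
      (k := k) (p := 2)
    have e1 : (2 ^ (v + 1) * c + k) % 2 = k % 2 := by rw [pow_succ', mul_assoc]; omega
    have e2 : (2 ^ (v + 1) * c + k) / 2 = 2 ^ v * c + k / 2 := by rw [pow_succ', mul_assoc]; omega
    rw [e1, e2, Nat.choose_self, one_mul] at h
    rw [h.dvd_iff dvd_rfl]
    exact ih _ (by rw [pow_succ] at hk; omega)

lemma choose_even (v c : ℕ) : 2 ∣ (2 ^ v * (2 * c + 1) + 2 ^ v).choose (2 ^ v) := by
  induction v with
  | zero => simp only [pow_zero, one_mul, Nat.choose_one_right]; omega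
  | succ v ih =>
    have h := Choose.choose_modEq_choose_mod_mul_choose_div_nat
      (n := 2 ^ (v + 1) * (2 * c + 1) + 2 ^ (v + 1)) (k := 2 ^ (v + 1)) (p := 2)
    have e2 : (2 ^ (v + 1) * (2 * c + 1) + 2 ^ (v + 1)) / 2 = 2 ^ v * (2 * c + 1) + 2 ^ v := by
      rw [pow_succ', mul_assoc]; omega
    have e3 : 2 ^ (v + 1) / 2 = 2 ^ v := by rw [pow_succ']; omega
    rw [e2, e3] at h
    rw [h.dvd_iff dvd_rfl]
    exact ih.mul_left _

lemma recur (b : ℕ) (B : ℕ → ℚ)
    (hB : PowerSeries.mk (fun n => B n / n.factorial) *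
        (exp ℚ - ∑ k ∈ range b, C (1 / (k.factorial : ℚ)) * X ^ k) =
      C (1 / (b.factorial : ℚ)) * X ^ b) (n : ℕ) :
    ∑ k ∈ range (n + 1), (n.choose k : ℚ) * B (n - k) / ((b + k).choose k : ℚ) =
      if n = 0 then 1 else 0 := by
  have h1 : exp ℚ - ∑ k ∈ range b, C (1 / (k.factorial : ℚ)) * X ^ k =
      X ^ b * PowerSeries.mk (fun k => 1 / ((k + b).factorial : ℚ)) := by
    ext m
    rw [coeff_X_pow_mul', map_sub, coeff_exp, map_sum]
    simp only [coeff_C_mul, coeff_X_pow, mul_ite, mul_one, mul_zero, sum_ite_eq, mem_range,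
      coeff_mk]
    by_cases h : b ≤ m
    · rw [if_neg (by omega), if_pos h, Nat.sub_add_cancel h]; simp
    · rw [if_pos (by omega), if_neg h]; simp
  rw [h1, mul_left_comm, mul_comm (C _)] at hB
  have h2 := congrArg (coeff n) (mul_left_cancel₀ (pow_ne_zero b X_ne_zero) hB)
  rw [mul_comm, coeff_mul, Finset.Nat.sum_antidiagonal_eq_sum_range_succ_mk, coeff_C] at h2
  have h3 := congrArg (· * ((n.factorial : ℚ) * b.factorial)) h2
  simp only [sum_mul, coeff_mk] at h3
  have hb : (b.factorial : ℚ) ≠ 0 := by positivity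
  have h4 : (if n = 0 then 1 / (b.factorial : ℚ) else 0) * ((n.factorial : ℚ) * b.factorial) =
      if n = 0 then 1 else 0 := by
    split_ifs with h
    · subst h; simp [hb]
    · simp
  rw [← h4, ← h3]
  refine sum_congr rfl fun k hk => ?_
  rw [Nat.cast_choose ℚ (Nat.lt_succ_iff.1 (mem_range.1 hk)), Nat.cast_choose ℚ (Nat.le_add_left k b),
    Nat.add_sub_cancel, add_comm k b]
  field_simp

/-- For every `b ≥ 1`, if `B` is the sequence of hypergeometric Bernoulli numbers `B_n^{(b)}`, the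
least `n` for which `B n` has even denominator is `ν_2(b) + 1` if `4 ∤ b` and `2 ^ {ν_2(b)}` if
`4 ∣ b`. -/
theorem result : ∀ b : ℕ, 1 ≤ b → ∀ B : ℕ → ℚ,
    PowerSeries.mk (fun n => B n / n.factorial) *
        (exp ℚ - ∑ k ∈ range b, C (1 / (k.factorial : ℚ)) * X ^ k) =
      C (1 / (b.factorial : ℚ)) * X ^ b →
    IsLeast {n | Even (B n).den}
      (if b % 4 = 0 then 2 ^ padicValNat 2 b else padicValNat 2 b + 1) := by
  intro b hb B hB
  have hr := recur b B hB
  obtain ⟨v, c, hc, rfl⟩ := Nat.exists_eq_two_pow_mul_odd (show b ≠ 0 by omega)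
  obtain ⟨c, rfl⟩ := hc
  have hv : padicValNat 2 (2 ^ v * (2 * c + 1)) = v := by
    rw [padicValNat.mul (by positivity) (by omega), padicValNat.prime_pow,
      padicValNat.eq_zero_of_not_dvd (by omega), add_zero]
  have he : (if 2 ^ v * (2 * c + 1) % 4 = 0 then 2 ^ v else v + 1) = 2 ^ v := by
    rcases v with _ | _ | v
    · simp
    · simp
    · rw [if_pos]
      rw [show 2 ^ (v + 1 + 1) * (2 * c + 1) = 4 * (2 ^ v * (2 * c + 1)) by ring]
      omega
  rw [hv, he]
  set b := 2 ^ v * (2 * c + 1) with hbdef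
  have hB0 : B 0 = 1 := by simpa using hr 0
  have term : ∀ n k, k < 2 ^ v → padicNorm 2 (B (n - k)) ≤ 1 →
      padicNorm 2 ((n.choose k : ℚ) * B (n - k) / ((b + k).choose k : ℚ)) ≤ 1 := by
    intro n k hk h
    rw [padicNorm.div, padicNorm.mul, (padicNorm.nat_eq_one_iff _).2 (choose_odd v _ k hk), div_one]
    exact mul_le_one₀ (padicNorm.of_nat _) (padicNorm.nonneg _) h
  have low : ∀ n, n < 2 ^ v → padicNorm 2 (B n) ≤ 1 := by
    intro n
    induction n using Nat.strong_induction_on with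
    | _ n ih =>
      intro hn
      rcases Nat.eq_zero_or_pos n with rfl | h0
      · rw [hB0]; simp
      have h := hr n
      rw [if_neg (by omega), sum_range_succ'] at h
      simp only [Nat.choose_zero_right, Nat.cast_one, one_mul, Nat.sub_zero, div_one] at h
      rw [eq_neg_of_add_eq_zero_right h, padicNorm.neg]
      exact padicNorm.sum_le' (fun k hk => term n (k + 1) (by have := mem_range.1 hk; omega)
        (ih _ (by omega) (by omega))) zero_le_one
  refine ⟨?_, fun n hn => ?_⟩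
  · by_contra h
    have h1 : padicNorm 2 (B (2 ^ v)) ≤ 1 := (den_odd_iff _).1 (Nat.not_even_iff_odd.1 h)
    have h2 := hr (2 ^ v)
    have h0 : 0 < 2 ^ v := by positivity
    rw [if_neg (by omega), sum_range_succ, Nat.sub_self, hB0, Nat.choose_self] at h2
    have h3 : padicNorm 2 (((1 : ℕ) : ℚ) * 1 / ((b + 2 ^ v).choose (2 ^ v) : ℚ)) ≤ 1 := by
      rw [eq_neg_of_add_eq_zero_right h2, padicNorm.neg]
      refine padicNorm.sum_le' (fun k hk => term _ k (mem_range.1 hk) ?_) zero_le_one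
      rcases Nat.eq_zero_or_pos k with rfl | hk0
      · exact h1
      · exact low _ (by omega)
    have h4 := (padicNorm.nat_lt_one_iff (p := 2) _).2 (choose_even v c)
    have h5 : ((b + 2 ^ v).choose (2 ^ v) : ℚ) ≠ 0 :=
      Nat.cast_ne_zero.2 (Nat.choose_pos (Nat.le_add_left _ _)).ne'
    have h6 := (padicNorm.nonneg (p := 2) _).lt_of_ne' (padicNorm.nonzero h5)
    rw [padicNorm.div, Nat.cast_one, mul_one, padicNorm.one, div_le_one h6] at h3
    exact absurd h4 (not_lt.2 h3)
  · by_contra h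
    exact Nat.not_even_iff_odd.2 ((den_odd_iff _).2 (low n (not_le.1 h))) hn

end Pool.Agent.Results.MP_375cbb_nt.Alpha
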